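import Mathlib
import Pool.Agent.H312R2.Upper

/-!
# Upper bound for the length of the shortest uniquely occurring pattern of consecutive primes

`L k` is the least `l ≥ 1` such that the pattern of the block `p k, ..., p (k + l - 1)` occurs at no
other place among consecutive primes.  `A k` is the least `l` such that this block meets every residue
class modulo some prime; the prime tuples conjecture predicts `L k = A k`.

We prove, for every `ε > 0` and all large `k`, that `L k ≤ A k` and `p k ≤ A k ≤ (p k) ^ (2 + ε)`.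
-/

namespace Pool.Agent.Results.MP_e36f12_nt.UpperBound

/-- The `k`-th prime for `k ≥ 1`, so `p 1 = 2`, `p 2 = 3`, and so on. -/
noncomputable def p (k : ℕ) : ℕ := Nat.nth Nat.Prime (k - 1)

/-- The pattern of the block of `l` consecutive primes starting at `p k`: its tuple of offsets. -/
noncomputable def pattern (k l : ℕ) : Fin l → ℕ := fun i => p (k + i) - p k

/-- The pattern of the block of `l` consecutive primes starting at `p k` starts at no other prime. -/
def OccursOnlyAt (k l : ℕ) : Prop := ∀ j : ℕ, 1 ≤ j → j ≠ k → pattern j l ≠ pattern k l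

/-- The least length `l ≥ 1` for which the pattern at `p k` occurs only at `p k`. -/
noncomputable def L (k : ℕ) : ℕ := sInf {l : ℕ | 1 ≤ l ∧ OccursOnlyAt k l}

/-- For some prime `q`, the block of `l` consecutive primes starting at `p k` meets every residue
class modulo `q`. -/
def Inadmissible (k l : ℕ) : Prop :=
  ∃ q : ℕ, q.Prime ∧ ∀ c : ℕ, ∃ i : ℕ, i < l ∧ p (k + i) ≡ c [MOD q]

/-- The least length `l` for which the block of `l` consecutive primes starting at `p k` meets every
residue class modulo some prime. -/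
noncomputable def A (k : ℕ) : ℕ := sInf {l : ℕ | Inadmissible k l}

open Pool.Agent.H312R2 (P SameP Covers)

lemma p_eq (k i : ℕ) (hk : 1 ≤ k) : p (k + i) = P (k - 1 + i) := by
  unfold p P
  congr 1
  omega

lemma p_eq' (k : ℕ) : p k = P (k - 1) := rfl

lemma inadm_iff (k l : ℕ) (hk : 1 ≤ k) : Inadmissible k l ↔ ∃ q : ℕ, q.Prime ∧ Covers (k - 1) l q := by
  unfold Inadmissible Covers
  simp only [p_eq k _ hk]

lemma sameP_of_pattern (j k l : ℕ) (hj : 1 ≤ j) (hk : 1 ≤ k) (h : pattern j l = pattern k l) :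
    SameP (j - 1) (k - 1) l := by
  intro i hi
  have h1 := congrFun h ⟨i, hi⟩
  simp only [pattern, p_eq j _ hj, p_eq k _ hk, p_eq'] at h1
  have h2 : P (j - 1) ≤ P (j - 1 + i) := Pool.Agent.H312R2.P_mono.monotone (by omega)
  have h3 : P (k - 1) ≤ P (k - 1 + i) := Pool.Agent.H312R2.P_mono.monotone (by omega)
  omega

lemma sameP_symm {j k l : ℕ} (h : SameP j k l) : SameP k j l := fun i hi => (h i hi).symm

lemma covers_of_same {j k l q : ℕ} (hq : q.Prime) (hS : SameP j k l) (hc : Covers k l q) : Covers j l q := by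
  intro c
  obtain ⟨i, hi, h⟩ := hc (c + P k + (q - 1) * P j)
  refine ⟨i, hi, ?_⟩
  have h1 : P (j + i) + P k ≡ c + P k [MOD q] := by
    rw [hS i hi]
    refine (h.add_right (P j)).trans ?_
    have h2 : c + P k + (q - 1) * P j + P j = c + P k + q * P j := by
      have := hq.two_le
      obtain ⟨q', rfl⟩ : ∃ q', q = q' + 1 := ⟨q - 1, by omega⟩
      rw [Nat.add_sub_cancel]
      ring
    rw [h2]
    have h3 : q * P j ≡ 0 [MOD q] := (Nat.modEq_zero_iff_dvd).2 (dvd_mul_right _ _)
    simpa using h3.add_left (c + P k)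
  exact Nat.ModEq.add_right_cancel' (P k) h1

/-- For every `ε > 0` and all large `k`: the block of length `L k` at `p k` occurs only there, and
`L k ≤ A k`, where `A k`, the first length at which the block at `p k` meets every class modulo some
prime, satisfies `p k ≤ A k ≤ (p k) ^ (2 + ε)`. -/
theorem result (ε : ℝ) (hε : 0 < ε) : ∃ k₀ : ℕ, ∀ k : ℕ, k₀ ≤ k →
    (1 ≤ L k ∧ OccursOnlyAt k (L k)) ∧ Inadmissible k (A k) ∧
      L k ≤ A k ∧ p k ≤ A k ∧ (A k : ℝ) ≤ (p k : ℝ) ^ (2 + ε) := by
  obtain ⟨b0, hb0⟩ := Pool.Agent.H312R2.no_repeat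
  obtain ⟨k1, hk1⟩ := Pool.Agent.H312R2.exists_covers ε hε
  refine ⟨max (b0 + 1) (k1 + 1), fun k hk => ?_⟩
  simp only [max_le_iff] at hk
  have hk0 : 1 ≤ k := by omega
  obtain ⟨l, q, hq, hc, hl⟩ := hk1 (k - 1) (by omega)
  have hAne : {l : ℕ | Inadmissible k l}.Nonempty := ⟨l, (inadm_iff k l hk0).2 ⟨q, hq, hc⟩⟩
  have hAin : Inadmissible k (A k) := Nat.sInf_mem hAne
  have hAle : A k ≤ l := Nat.sInf_le ((inadm_iff k l hk0).2 ⟨q, hq, hc⟩)
  obtain ⟨q', hq', hc'⟩ := (inadm_iff k _ hk0).1 hAin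
  -- a prime `q'` all of whose classes are met lies in the block
  have hpA : p k ≤ A k := by
    have h1 : q' ≤ A k := Pool.Agent.H312R2.card_of_covers hq'.pos hc'
    obtain ⟨i, hi, h0⟩ := hc' 0
    have h2 : q' ∣ P (k - 1 + i) := (Nat.modEq_zero_iff_dvd).1 h0
    have h3 := (Nat.prime_dvd_prime_iff_eq hq' (Pool.Agent.H312R2.P_prime _)).1 h2
    have h4 : P (k - 1) ≤ P (k - 1 + i) := Pool.Agent.H312R2.P_mono.monotone (by omega)
    rw [p_eq']
    omega
  have hPk : b0 ≤ P (k - 1) := by
    have := Pool.Agent.H312R2.add_two_le_P (k - 1)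
    omega
  have hU : OccursOnlyAt k (A k) := by
    intro j hj hjk hpat
    have hS := sameP_of_pattern j k (A k) hj hk0 hpat
    rcases lt_or_gt_of_ne hjk with h | h
    · exact hb0 (j - 1) (k - 1) (A k) q' (by omega) hPk hS hq' (covers_of_same hq' hS hc')
    · have h5 : P (k - 1) ≤ P (j - 1) := Pool.Agent.H312R2.P_mono.monotone (by omega)
      exact hb0 (k - 1) (j - 1) (A k) q' (by omega) (hPk.trans h5) (sameP_symm hS) hq' hc'
  have hA1 : 1 ≤ A k := by
    have := (Pool.Agent.H312R2.P_prime (k - 1)).two_le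
    rw [p_eq'] at hpA
    omega
  have hLne : {l : ℕ | 1 ≤ l ∧ OccursOnlyAt k l}.Nonempty := ⟨A k, hA1, hU⟩
  refine ⟨Nat.sInf_mem hLne, hAin, Nat.sInf_le ⟨hA1, hU⟩, hpA, ?_⟩
  rw [p_eq']
  exact le_trans (by exact_mod_cast hAle) hl

end Pool.Agent.Results.MP_e36f12_nt.UpperBound
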