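import Mathlib
import Pool.Agent.H312R3.LK.Main
import Pool.Agent.Results.MP_e36f12_nt.UpperBound

/-!
# Lower bound for the length of the shortest uniquely occurring pattern, for almost all `k`
-/

namespace Pool.Agent.Results.MP_e36f12_nt.LowerAlmostAll

/-- The `k`-th prime for `k ≥ 1`, so `p 1 = 2`, `p 2 = 3`, and so on. -/
noncomputable def p (k : ℕ) : ℕ := Nat.nth Nat.Prime (k - 1)

/-- The pattern of the block of `l` consecutive primes starting at `p k`: its tuple of offsets. -/
noncomputable def pattern (k l : ℕ) : Fin l → ℕ := fun i => p (k + i) - p k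

/-- The pattern of the block of `l` consecutive primes starting at `p k` starts at no other prime. -/
def OccursOnlyAt (k l : ℕ) : Prop := ∀ j : ℕ, 1 ≤ j → j ≠ k → pattern j l ≠ pattern k l

/-- The least length `l ≥ 1` for which the pattern at `p k` occurs only at `p k`. -/
noncomputable def L (k : ℕ) : ℕ := sInf {l : ℕ | 1 ≤ l ∧ OccursOnlyAt k l}

open Pool.Agent.H312R2 Pool.Agent.H312R3.LK Filter Topology

lemma p_eq (k i : ℕ) (hk : 1 ≤ k) : p (k + i) = P (k - 1 + i) := by
  unfold p P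
  congr 1
  omega

lemma off_eq (m l : ℕ) : off m l = pattern (m + 1) l := by
  funext i
  have h1 := p_eq (m + 1) i (by omega)
  have h0 := p_eq (m + 1) 0 (by omega)
  simp only [add_zero, Nat.add_sub_cancel] at h1 h0
  unfold off pattern
  rw [h1, h0]

/-- For all `θ > 0`, `τ ≥ 0` with `θ (1 + τ) < 1` and all large `N`, at most `13 N / (log N) ^ τ` of the `k ≤ N` have
`L k ≤ θ log N / log log N`. -/
theorem result (θ τ : ℝ) (hθ : 0 < θ) (hτ : 0 ≤ τ) (h : θ * (1 + τ) < 1) : ∃ N₀ : ℕ, ∀ N : ℕ, N₀ ≤ N →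
    ({k : ℕ | 1 ≤ k ∧ k ≤ N ∧ (L k : ℝ) ≤ θ * Real.log N / Real.log (Real.log N)}.ncard : ℝ) ≤
      13 * N / Real.log N ^ τ := by
  classical
  obtain ⟨k0, hk0⟩ := Pool.Agent.Results.MP_e36f12_nt.UpperBound.result 1 one_pos
  have tl : Tendsto (fun N : ℕ => Real.log (N : ℝ)) atTop atTop :=
    Real.tendsto_log_atTop.comp tendsto_natCast_atTop_atTop
  -- `k0 ≤ N / (log N)^τ`
  have e1 : ∀ᶠ N : ℕ in atTop, (k0 : ℝ) ≤ N / Real.log N ^ τ := by
    have h1 := (isLittleO_log_rpow_rpow_atTop τ (show (0 : ℝ) < 1 by norm_num)).def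
      (show (0 : ℝ) < 1 / (k0 + 1) by positivity)
    have h2 := (tendsto_natCast_atTop_atTop (R := ℝ)).eventually h1
    filter_upwards [h2, tl.eventually_ge_atTop 1, eventually_ge_atTop 1] with N h3 h4 h5
    have hN : (1 : ℝ) ≤ N := by exact_mod_cast h5
    have hp : 0 < Real.log N ^ τ := Real.rpow_pos_of_pos (by linarith) _
    rw [Real.rpow_one, Real.norm_eq_abs, Real.norm_eq_abs, abs_of_pos hp, abs_of_nonneg (by linarith : (0 : ℝ) ≤ N),
      div_mul_eq_mul_div, le_div_iff₀ (by positivity)] at h3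
    rw [le_div_iff₀ hp]
    nlinarith
  obtain ⟨N0, hN0⟩ := eventually_atTop.1 (e1.and (main θ τ hθ hτ h))
  refine ⟨N0, fun N hN => ?_⟩
  obtain ⟨h1, h2⟩ := hN0 N hN
  set Y : ℝ := θ * Real.log N / Real.log (Real.log N) with hY
  set B := (Finset.Icc 1 N).filter (fun k => (L k : ℝ) ≤ Y) with hB
  have hset : {k : ℕ | 1 ≤ k ∧ k ≤ N ∧ (L k : ℝ) ≤ Y} = (B : Set ℕ) := by
    ext k
    simp only [hB, Finset.coe_filter, Finset.mem_Icc, Set.mem_setOf_eq]
    tauto
  rw [hset, Set.ncard_coe_finset]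
  set B1 := B.filter (fun k => k < k0) with hB1
  set B2 := B.filter (fun k => ¬ k < k0) with hB2
  have hsum : B.card = B1.card + B2.card := (Finset.card_filter_add_card_filter_not _).symm
  have c1 : B1.card ≤ k0 := by
    calc B1.card ≤ (Finset.range k0).card := Finset.card_le_card (fun k hk =>
          Finset.mem_range.2 (Finset.mem_filter.1 hk).2)
      _ = k0 := Finset.card_range k0
  set S := B2.image (fun k => k - 1) with hS
  have hScard : S.card = B2.card := by
    apply Finset.card_image_of_injOn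
    intro k hk k' hk' he
    have m1 := (Finset.mem_Icc.1 (Finset.mem_filter.1 (Finset.mem_filter.1 hk).1).1).1
    have m2 := (Finset.mem_Icc.1 (Finset.mem_filter.1 (Finset.mem_filter.1 hk').1).1).1
    simp only at he
    omega
  have c2 := h2 S (by
    intro m hm
    obtain ⟨k, hk, rfl⟩ := Finset.mem_image.1 hm
    have q1 := Finset.mem_filter.1 hk
    have q2 := Finset.mem_filter.1 q1.1
    have q3 := Finset.mem_Icc.1 q2.1
    refine ⟨by omega, ?_⟩
    intro l hl1 hl2 m' he
    obtain ⟨hL1, hL2⟩ := (hk0 k (by omega)).1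
    have hLl : L k ≤ l := by
      have : (L k : ℝ) < l + 1 := lt_of_le_of_lt q2.2 hl2
      have h5 : L k < l + 1 := by exact_mod_cast this
      omega
    by_contra hne
    have hkk : k - 1 + 1 = k := by omega
    rw [off_eq, off_eq, hkk] at he
    apply hL2 (m' + 1) (by omega) (by omega)
    funext i
    have h6 := congrFun he ⟨i.1, lt_of_lt_of_le i.2 hLl⟩
    exact h6.symm)
  rw [hsum]
  push_cast
  rw [hScard] at c2
  have c1' : (B1.card : ℝ) ≤ k0 := by exact_mod_cast c1
  have : 13 * (N : ℝ) / Real.log N ^ τ = N / Real.log N ^ τ + 12 * N / Real.log N ^ τ := by ring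
  rw [this]
  linarith

end Pool.Agent.Results.MP_e36f12_nt.LowerAlmostAll
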